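import Mathlib

/-!
# Motion of the far zeros between consecutive Riemann Xi-approximates: definitions

`GG`, `PhiN`, `XiN`, `FF` are the functions of the problem. The rest are working definitions:
`ph a` is the kernel of `Φ_n` for `a = π n²`, `ph1`, `ph2`, `ph3` its derivatives.
-/

set_option autoImplicit false

namespace Pool.Agent.XI

open MeasureTheory Set Filter Topology

/-- `G(z; a, b) = 4 ∫_0^∞ cos(2 z u) exp(2 b u - a exp(2 u)) du` -/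
noncomputable def GG (a b : ℝ) (z : ℂ) : ℂ :=
  4 * ∫ u in Ioi (0 : ℝ), Complex.cos (2 * z * u) * (Real.exp (2 * b * u - a * Real.exp (2 * u)) : ℝ)

/-- `Φ_n(z) = 2 π² n⁴ G(z/2; n² π, 9/4) - 3 π n² G(z/2; n² π, 5/4)` -/
noncomputable def PhiN (n : ℕ) (z : ℂ) : ℂ :=
  2 * (Real.pi : ℂ) ^ 2 * (n : ℂ) ^ 4 * GG ((n : ℝ) ^ 2 * Real.pi) (9 / 4) (z / 2) -
    3 * (Real.pi : ℂ) * (n : ℂ) ^ 2 * GG ((n : ℝ) ^ 2 * Real.pi) (5 / 4) (z / 2)

/-- `Ξ_N = Φ_1 + … + Φ_N` -/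
noncomputable def XiN (N : ℕ) (z : ℂ) : ℂ := ∑ n ∈ Finset.Icc 1 N, PhiN n z

/-- `F_{k,t} = Ξ_k + t Φ_{k+1}` -/
noncomputable def FF (k : ℕ) (t : ℝ) (z : ℂ) : ℂ := XiN k z + (t : ℂ) * PhiN (k + 1) z

/-- `exp (c u - a exp (2 u))` -/
noncomputable def EE (a c u : ℝ) : ℝ := Real.exp (c * u - a * Real.exp (2 * u))

/-- the kernel of `Φ_n`, `a = π n²` -/
noncomputable def ph (a u : ℝ) : ℝ := 2 * a ^ 2 * EE a (9 / 2) u - 3 * a * EE a (5 / 2) u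

/-- its first derivative -/
noncomputable def ph1 (a u : ℝ) : ℝ :=
  -4 * a ^ 3 * EE a (13 / 2) u + 15 * a ^ 2 * EE a (9 / 2) u - 15 / 2 * a * EE a (5 / 2) u

/-- its second derivative -/
noncomputable def ph2 (a u : ℝ) : ℝ :=
  8 * a ^ 4 * EE a (17 / 2) u - 56 * a ^ 3 * EE a (13 / 2) u + 165 / 2 * a ^ 2 * EE a (9 / 2) u -
    75 / 4 * a * EE a (5 / 2) u

/-- its third derivative -/
noncomputable def ph3 (a u : ℝ) : ℝ :=
  -16 * a ^ 5 * EE a (21 / 2) u + 180 * a ^ 4 * EE a (17 / 2) u - 529 * a ^ 3 * EE a (13 / 2) u +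
    1635 / 4 * a ^ 2 * EE a (9 / 2) u - 375 / 8 * a * EE a (5 / 2) u

/-- `π n²` -/
noncomputable def an (n : ℕ) : ℝ := Real.pi * (n : ℝ) ^ 2

/-- the boundary part of `Φ_n` -/
noncomputable def BB (a : ℝ) (z : ℂ) : ℂ :=
  2 * ∫ u in Ioi (0 : ℝ), Complex.exp (Complex.I * z * u) * ((ph a u - ph a (-u) : ℝ) : ℂ)

/-- the remainder of its expansion -/
noncomputable def KK (a : ℝ) (z : ℂ) : ℂ :=
  ∫ u in Ioi (0 : ℝ), Complex.exp (Complex.I * z * u) * ((ph2 a u - ph2 a (-u) : ℝ) : ℂ)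

/-- the coefficient of `1/z²` -/
noncomputable def aa (a : ℝ) : ℝ := -4 * ph1 a 0

/-- the Gamma part -/
noncomputable def MM (z : ℂ) : ℂ :=
  (Real.pi : ℂ) ^ (-1 / 4 + Complex.I * z / 2) * Complex.Gamma (5 / 4 - Complex.I * z / 2) *
    (-1 / 2 - Complex.I * z)

/-- `z² M(z)` -/
noncomputable def WW (z : ℂ) : ℂ := z ^ 2 * MM z

/-- `n^(-1/2 + i z)` -/
noncomputable def ee (n : ℕ) (z : ℂ) : ℂ := (n : ℂ) ^ (-1 / 2 + Complex.I * z)

/-- the Dirichlet polynomial -/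
noncomputable def DD (k : ℕ) (t : ℝ) (z : ℂ) : ℂ :=
  ∑ n ∈ Finset.Icc 1 k, ee n z + (t : ℂ) * ee (k + 1) z

/-- the constant term of `z² (boundary part)` -/
noncomputable def cc (k : ℕ) (t : ℝ) : ℝ := ∑ n ∈ Finset.Icc 1 k, aa (an n) + t * aa (an (k + 1))

/-- the remainder of `z² (boundary part)` -/
noncomputable def kap (k : ℕ) (t : ℝ) (z : ℂ) : ℂ :=
  ∑ n ∈ Finset.Icc 1 k, KK (an n) z + (t : ℂ) * KK (an (k + 1)) z

/-- the logarithmic derivative of `WW` -/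
noncomputable def LL (z : ℂ) : ℂ :=
  2 / z + Complex.I / 2 * (Real.log Real.pi : ℝ) -
    Complex.I / 2 * Complex.digamma (5 / 4 - Complex.I * z / 2) -
    Complex.I / (-1 / 2 - Complex.I * z)

end Pool.Agent.XI
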