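import Pool.Agent.Lib_helper1.XI.P.F5
import Pool.Agent.Lib_helper1.XI.P.G1
import Pool.Agent.Lib_helper1.XI.P.G2

set_option autoImplicit false

namespace Pool.Agent.XI

open MeasureTheory Set Filter Topology

theorem final (k : ℕ) (hk : 1 ≤ k) : ∃ R : ℝ,
    (∀ (J : Set ℝ) (z : ℝ → ℂ), J.OrdConnected → J ⊆ Icc 0 1 → ContinuousOn z J →
      (∀ t ∈ J, FF k t (z t) = 0 ∧ 0 < (z t).im ∧ R < ‖z t‖) →
      StrictAntiOn (fun t => (z t).im) J) ∧
    ∀ t ∈ Icc (0 : ℝ) 1, ∀ z : ℂ, R < ‖z‖ → FF k t z = 0 → z.im ≠ 0 ∧ deriv (FF k t) z ≠ 0 := by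
  obtain ⟨R, hR, h⟩ := core hk
  refine ⟨R, ?_, ?_⟩
  · intro J z hJ hJ1 hz hzero
    refine path_anti (X := XiN k) (P := PhiN (k + 1)) hJ hz (fun t ht => (hzero t ht).1) ?_ ?_
    · intro t ht
      exact (h t (hJ1 ht) (z t) (hzero t ht).2.1.le (hzero t ht).2.2 (hzero t ht).1).2.1
    · intro t ht
      exact (h t (hJ1 ht) (z t) (hzero t ht).2.1.le (hzero t ht).2.2 (hzero t ht).1).2.2
  · have key : ∀ t ∈ Icc (0 : ℝ) 1, ∀ z : ℂ, 0 ≤ z.im → R < ‖z‖ → FF k t z = 0 →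
        z.im ≠ 0 ∧ ∃ d : ℂ, d ≠ 0 ∧ HasDerivAt (FF k t) d z := by
      intro t ht z hz hzR h0
      obtain ⟨h1, h2, x', p', hx, hp, h3⟩ := h t ht z hz hzR h0
      refine ⟨h1.ne', x' + t * p', ?_, hx.add (hp.const_mul _)⟩
      intro h4
      rw [h4, zero_div, Complex.zero_im] at h3
      exact lt_irrefl _ h3
    have heven : ∀ t : ℝ, ∀ z : ℂ, FF k t (-z) = FF k t z := by
      intro t z
      unfold FF
      rw [XiN_even, PhiN_even]
    intro t ht z hzR h0
    by_cases hz : 0 ≤ z.im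
    · obtain ⟨h1, d, hd, hdz⟩ := key t ht z hz hzR h0
      exact ⟨h1, by rw [hdz.deriv]; exact hd⟩
    · push Not at hz
      have h1 : 0 ≤ (-z).im := by
        rw [Complex.neg_im]
        linarith
      obtain ⟨h2, d, hd, hdz⟩ := key t ht (-z) h1 (by rwa [norm_neg]) (by rwa [heven])
      refine ⟨hz.ne, ?_⟩
      have h3 : HasDerivAt (FF k t) (-d) z := by
        have h4 : HasDerivAt (fun w : ℂ => FF k t (-w)) (-d) z := by
          have h5 := HasDerivAt.comp z (h₂ := FF k t) (h := fun w : ℂ => -w) hdz (hasDerivAt_neg z)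
          rw [mul_neg_one] at h5
          exact h5
        have h6 : (fun w : ℂ => FF k t (-w)) = FF k t := funext fun w => heven t w
        rwa [h6] at h4
      rw [h3.deriv]
      exact neg_ne_zero.2 hd

end Pool.Agent.XI
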